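import Pool.Agent.Helper57.QZ.Stmts3
import Pool.Agent.Helper47.Q2.TL

/-! Row TL3 of the sheet `Pool.Agent.Helper57.QZ.Stmts3`, after helper47. -/

set_option autoImplicit false

namespace Pool.Agent.Helper57.QZ

open MeasureTheory Set Filter Topology

open TL47 in
theorem st_TL3_57 : ST_TL3 := by
  intro ε hε C η hC hη
  have hε0 : 0 < ε := hε.1
  set S : ℝ := ∑' n : ℕ, (n : ℝ) ^ (-(1 + ε / 2)) with hS
  have hS0 : 0 ≤ S := tsum_nonneg fun n => by positivity
  set B : ℝ := C ^ 2 * (16 / ε ^ 2) * S with hB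
  have hB0 : 0 ≤ B := by positivity
  set G : ℝ := max 1 (4 * C ^ 2 / η ^ 2) with hG
  have hG1 : 1 ≤ G := le_max_left _ _
  refine ⟨max 3 (2 / ε), le_max_left _ _, fun A hA => ?_⟩
  have hA3 : 3 ≤ A := (le_max_left _ _).trans hA
  have hA2 : 2 ≤ A * ε := by
    have := (le_max_right 3 (2 / ε)).trans hA
    rwa [div_le_iff₀ hε0] at this
  -- the conditions on L = log T
  have hlim : ∀ᶠ L : ℝ in atTop, 3 * (3 + Real.log G + 18 * A * Real.log L) ≤ Real.log L ^ 4 ∧
      1 ≤ Real.log L ∧ Real.log L ^ 4 ≤ L := by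
    have h1 : ∀ᶠ L : ℝ in atTop, 1 + 3 * (3 + Real.log G) + 54 * A ≤ Real.log L :=
      Real.tendsto_log_atTop.eventually_ge_atTop _
    have h2 : ∀ᶠ L : ℝ in atTop, Real.log L ^ 4 ≤ L := by
      have h := (isLittleO_log_rpow_atTop (show (0:ℝ) < 1 / 4 by norm_num)).bound
        (show (0:ℝ) < 1 by norm_num)
      filter_upwards [h, eventually_ge_atTop (1:ℝ)] with X h1 h2
      have hl : 0 ≤ Real.log X := Real.log_nonneg h2
      rw [Real.norm_of_nonneg hl, Real.norm_of_nonneg (Real.rpow_nonneg (by linarith) _),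
        one_mul] at h1
      have h4 : (Real.log X) ^ 4 ≤ (X ^ ((1:ℝ) / 4)) ^ 4 := pow_le_pow_left₀ hl h1 4
      have h5 : (X ^ ((1:ℝ) / 4)) ^ 4 = X := by
        rw [← Real.rpow_natCast, ← Real.rpow_mul (by linarith)]
        norm_num
      rwa [h5] at h4
    filter_upwards [h1, h2] with L h3 h4
    have hG0 : 0 ≤ Real.log G := Real.log_nonneg hG1
    obtain ⟨q, hq⟩ : ∃ q : ℝ, q = Real.log L := ⟨_, rfl⟩
    rw [← hq] at h3 h4 ⊢
    have q1 : 1 ≤ q := by linarith
    refine ⟨?_, q1, h4⟩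
    have q2 : q ^ 2 ≤ q ^ 4 := pow_le_pow_right₀ q1 (by norm_num)
    have h5 : q * (1 + 3 * (3 + Real.log G) + 54 * A) ≤ q * q :=
      mul_le_mul_of_nonneg_left h3 (by linarith)
    nlinarith
  obtain ⟨L₀, hL₀⟩ := eventually_atTop.mp (hlim.and ((eventually_ge_atTop (1 : ℝ)).and
    (eventually_ge_atTop (6 * B * Real.exp 2 / η ^ 2))))
  refine ⟨max 4 (Real.exp L₀), le_max_left _ _, fun T hT u hu => ?_⟩
  have hT4 : 4 ≤ T := (le_max_left _ _).trans hT
  have hT0 : 0 < T := by linarith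
  set L := Real.log T with hL
  have hLL₀ : L₀ ≤ L := by
    rw [hL, Real.le_log_iff_exp_le hT0]
    exact (le_max_right _ _).trans hT
  obtain ⟨⟨f5, fq1, fq4⟩, f1, f4⟩ := hL₀ L hLL₀
  have hTL : Real.exp L = T := Real.exp_log hT0
  have hL0 : 0 < L := by linarith
  set z := zA A T with hz
  have hLA1 : 1 ≤ L ^ A := Real.one_le_rpow f1 (by linarith)
  have hz_le : (z : ℝ) ≤ L ^ A := Nat.floor_le (by positivity)
  have hz1 : 1 ≤ z := by
    rw [hz, zA]
    exact Nat.le_floor (by simpa using hLA1)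
  have hz0 : (0 : ℝ) < z := by exact_mod_cast hz1
  have hz_ge : L ^ A / 2 ≤ z := by
    have h1 : L ^ A < z + 1 := Nat.lt_floor_add_one _
    have h2 : (1 : ℝ) ≤ z := by exact_mod_cast hz1
    linarith
  -- k
  have hq4 : 0 < Real.log L ^ 4 := by
    have : 0 < Real.log L := by linarith
    positivity
  have hx1 : 1 ≤ L / Real.log L ^ 4 := by
    rw [le_div_iff₀ hq4]
    linarith
  set k : ℕ := ⌈(L / Real.log L ^ 4)⌉₊ + 1 with hk
  have hk_ge : (L / Real.log L ^ 4) ≤ k := by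
    have := Nat.le_ceil ((L / Real.log L ^ 4))
    rw [hk]
    push_cast
    linarith
  have hk_le : (k : ℝ) ≤ 3 * (L / Real.log L ^ 4) := by
    have := Nat.ceil_lt_add_one (show 0 ≤ (L / Real.log L ^ 4) by positivity)
    rw [hk]
    push_cast
    linarith
  have hk1 : 1 ≤ k := by omega
  have hkL : (k : ℝ) ≤ 3 * L := by
    refine hk_le.trans ?_
    have : L / Real.log L ^ 4 ≤ L := div_le_self hL0.le (one_le_pow₀ fq1)
    linarith
  -- the mean value
  have hmv := mv (Pz z) (fun p hp => (Finset.mem_filter.mp hp).2) ((z : ℝ) ^ 6)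
    (fun p hp => by
      rw [Pz, Finset.mem_filter, Finset.mem_Icc] at hp
      exact_mod_cast hp.1.2) (one_le_pow₀ (by exact_mod_cast hz1)) u k T hT0
  have hmk := markov (Pz z) u k T η hT0 hη
  have hsq := sum_sq ε C hε0 hC z hz1 u hu
  rw [← hS, ← hB] at hsq
  have hab := sum_abs ε C hε0 hC z hz1 u hu
  set V := volume.real {t : ℝ | t ∈ Icc T (2 * T) ∧ η ≤ ‖∑ p ∈ Pz z, u p * E p t‖} with hV
  have hgoal : volume.real {t : ℝ | t ∈ Icc T (2 * T) ∧
      η ≤ ‖∑ p ∈ Pz z, u p * Complex.exp (-((t * Real.log p : ℝ) * Complex.I))‖} = V := rfl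
  rw [hgoal]
  have hη2 : 0 < η ^ (2 * k) := by positivity
  -- the diagonal
  have hdiag : (k.factorial * (∑ p ∈ Pz z, ‖u p‖ ^ 2) ^ k) ≤
      η ^ (2 * k) * Real.exp (-(2 * k)) := by
    have h1 : (k.factorial : ℝ) ≤ (k : ℝ) ^ k := by exact_mod_cast Nat.factorial_le_pow k
    have h2 : (∑ p ∈ Pz z, ‖u p‖ ^ 2) ^ k ≤ (B * (z : ℝ) ^ (-ε)) ^ k :=
      pow_le_pow_left₀ (by positivity) hsq k
    have h3 : (z : ℝ) ^ (-ε) ≤ 2 / L ^ 2 := by
      have h31 : (z : ℝ) ^ (-ε) ≤ (L ^ A / 2) ^ (-ε) :=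
        Real.rpow_le_rpow_of_nonpos (by positivity) hz_ge (by linarith)
      have h32 : (L ^ A / 2) ^ (-ε) = (L ^ (A * ε))⁻¹ * 2 ^ ε := by
        rw [Real.div_rpow (by positivity) (by norm_num), ← Real.rpow_mul hL0.le,
          Real.rpow_neg (by norm_num : (0 : ℝ) ≤ 2), mul_neg, Real.rpow_neg hL0.le, div_inv_eq_mul]
      have h33 : L ^ (2 : ℝ) ≤ L ^ (A * ε) := Real.rpow_le_rpow_of_exponent_le f1 hA2
      have h34 : L ^ (2 : ℝ) = L ^ 2 := by
        rw [← Real.rpow_natCast]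
        norm_num
      rw [h34] at h33
      have h35 : (2 : ℝ) ^ ε ≤ 2 := by
        calc (2 : ℝ) ^ ε ≤ (2 : ℝ) ^ (1 : ℝ) :=
              Real.rpow_le_rpow_of_exponent_le (by norm_num) (by linarith [hε.2])
          _ = 2 := Real.rpow_one 2
      rw [h32] at h31
      refine h31.trans ?_
      rw [div_eq_inv_mul]
      have h36 : (L ^ (A * ε))⁻¹ ≤ (L ^ 2)⁻¹ := inv_anti₀ (by positivity) h33
      exact mul_le_mul h36 h35 (by positivity) (by positivity)
    have h4 : (k : ℝ) * (B * (z : ℝ) ^ (-ε)) ≤ η ^ 2 * Real.exp (-2) := by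
      have h41 : (k : ℝ) * (B * (z : ℝ) ^ (-ε)) ≤ (3 * L) * (B * (2 / L ^ 2)) := by
        gcongr
      have h42 : (3 * L) * (B * (2 / L ^ 2)) = 6 * B / L := by
        field_simp
        ring
      rw [h42] at h41
      refine h41.trans ?_
      rw [div_le_iff₀ hL0]
      rw [div_le_iff₀ (by positivity)] at f4
      have h43 : Real.exp (-2) * Real.exp 2 = 1 := by
        rw [← Real.exp_add]
        norm_num
      calc 6 * B = (6 * B * Real.exp 2) * Real.exp (-2) := by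
            rw [mul_assoc, mul_comm (Real.exp 2), h43, mul_one]
        _ ≤ (L * η ^ 2) * Real.exp (-2) := mul_le_mul_of_nonneg_right f4 (Real.exp_pos _).le
        _ = η ^ 2 * Real.exp (-2) * L := by ring
    calc (k.factorial * (∑ p ∈ Pz z, ‖u p‖ ^ 2) ^ k)
        ≤ (k : ℝ) ^ k * (B * (z : ℝ) ^ (-ε)) ^ k := by
          apply mul_le_mul h1 h2 (by positivity) (by positivity)
      _ = ((k : ℝ) * (B * (z : ℝ) ^ (-ε))) ^ k := (mul_pow _ _ _).symm
      _ ≤ (η ^ 2 * Real.exp (-2)) ^ k := pow_le_pow_left₀ (by positivity) h4 k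
      _ = η ^ (2 * k) * Real.exp (-(2 * k)) := by
          rw [mul_pow, ← pow_mul, ← Real.exp_nat_mul]
          congr 2
          ring
  -- the off-diagonal part
  have hoff : 2 * ((z : ℝ) ^ 6) ^ k * (∑ p ∈ Pz z, ‖u p‖) ^ (2 * k) ≤
      η ^ (2 * k) * (T * Real.exp (-(2 * k))) := by
    have h1 : (∑ p ∈ Pz z, ‖u p‖) ^ (2 * k) ≤ (2 * C * (z : ℝ) ^ 6) ^ (2 * k) :=
      pow_le_pow_left₀ (by positivity) hab _
    have h2 : 2 * ((z : ℝ) ^ 6) ^ k * (2 * C * (z : ℝ) ^ 6) ^ (2 * k) =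
        2 * (4 * C ^ 2 * (z : ℝ) ^ 18) ^ k := by
      have e1 : (2 * C * (z : ℝ) ^ 6) ^ (2 * k) = ((2 * C * (z : ℝ) ^ 6) ^ 2) ^ k := by
        rw [← pow_mul]
      rw [e1, mul_assoc, ← mul_pow]
      congr 2
      ring
    have h3 : 4 * C ^ 2 * (z : ℝ) ^ 18 ≤ η ^ 2 * (G * (L ^ A) ^ 18) := by
      have h31 : 4 * C ^ 2 ≤ η ^ 2 * G := by
        have : 4 * C ^ 2 / η ^ 2 ≤ G := le_max_right _ _
        rw [div_le_iff₀ (by positivity)] at this
        linarith
      have h32 : (z : ℝ) ^ 18 ≤ (L ^ A) ^ 18 := pow_le_pow_left₀ hz0.le hz_le _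
      calc 4 * C ^ 2 * (z : ℝ) ^ 18 ≤ (η ^ 2 * G) * (L ^ A) ^ 18 :=
            mul_le_mul h31 h32 (by positivity) (by positivity)
        _ = η ^ 2 * (G * (L ^ A) ^ 18) := by ring
    have h4 : G * (L ^ A) ^ 18 = Real.exp (Real.log G + 18 * A * Real.log L) := by
      rw [Real.exp_add, Real.exp_log (by linarith)]
      congr 1
      rw [← Real.rpow_natCast, ← Real.rpow_mul hL0.le, Real.rpow_def_of_pos hL0]
      congr 1
      push_cast
      ring
    have h5 : 2 * (G * (L ^ A) ^ 18) ^ k ≤ T * Real.exp (-(2 * k)) := by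
      rw [h4, ← Real.exp_nat_mul, ← hTL, ← Real.exp_add]
      have h51 : (2 : ℝ) ≤ Real.exp 1 := by
        have := Real.add_one_le_exp (1 : ℝ)
        linarith
      calc 2 * Real.exp (k * (Real.log G + 18 * A * Real.log L))
          ≤ Real.exp 1 * Real.exp (k * (Real.log G + 18 * A * Real.log L)) := by gcongr
        _ = Real.exp (1 + k * (Real.log G + 18 * A * Real.log L)) := by rw [Real.exp_add]
        _ ≤ Real.exp (L + -(2 * k)) := by
            apply Real.exp_le_exp.mpr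
            have hk1' : (1 : ℝ) ≤ k := by exact_mod_cast hk1
            have hlogG : 0 ≤ Real.log G := Real.log_nonneg hG1
            have hlogL : 0 ≤ Real.log L := Real.log_nonneg f1
            set W : ℝ := Real.log G + 18 * A * Real.log L with hW
            have hW0 : 0 ≤ W := by positivity
            have h52 : (k : ℝ) * (3 + W) ≤ (3 * (L / Real.log L ^ 4)) * (3 + W) :=
              mul_le_mul_of_nonneg_right hk_le (by linarith)
            have h53 : (3 * (L / Real.log L ^ 4)) * (3 + W) ≤ L := by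
              have h54 : 3 * (3 + W) ≤ Real.log L ^ 4 := by
                rw [hW]
                linarith
              calc (3 * (L / Real.log L ^ 4)) * (3 + W) = (L / Real.log L ^ 4) * (3 * (3 + W)) := by ring
                _ ≤ (L / Real.log L ^ 4) * Real.log L ^ 4 :=
                    mul_le_mul_of_nonneg_left h54 (by positivity)
                _ = L := div_mul_cancel₀ _ hq4.ne'
            nlinarith
    calc 2 * ((z : ℝ) ^ 6) ^ k * (∑ p ∈ Pz z, ‖u p‖) ^ (2 * k)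
        ≤ 2 * ((z : ℝ) ^ 6) ^ k * (2 * C * (z : ℝ) ^ 6) ^ (2 * k) :=
          mul_le_mul_of_nonneg_left h1 (by positivity)
      _ = 2 * (4 * C ^ 2 * (z : ℝ) ^ 18) ^ k := h2
      _ ≤ 2 * (η ^ 2 * (G * (L ^ A) ^ 18)) ^ k := by
          apply mul_le_mul_of_nonneg_left _ (by norm_num)
          exact pow_le_pow_left₀ (by positivity) h3 k
      _ = η ^ (2 * k) * (2 * (G * (L ^ A) ^ 18) ^ k) := by
          rw [mul_pow, ← pow_mul]
          ring
      _ ≤ η ^ (2 * k) * (T * Real.exp (-(2 * k))) := mul_le_mul_of_nonneg_left h5 hη2.le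
  -- conclusion
  have hsum : η ^ (2 * k) * V ≤ η ^ (2 * k) * (2 * (T * Real.exp (-(2 * k)))) := by
    calc η ^ (2 * k) * V ≤ _ := hmk
      _ ≤ _ := hmv
      _ ≤ T * (η ^ (2 * k) * Real.exp (-(2 * k))) + η ^ (2 * k) * (T * Real.exp (-(2 * k))) :=
          add_le_add (mul_le_mul_of_nonneg_left hdiag hT0.le) hoff
      _ = η ^ (2 * k) * (2 * (T * Real.exp (-(2 * k)))) := by ring
  have hV1 := le_of_mul_le_mul_left hsum hη2
  refine hV1.trans ?_
  have h1 : (2 : ℝ) ≤ Real.exp k := by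
    have := Real.add_one_le_exp (k : ℝ)
    have hk1' : (1 : ℝ) ≤ k := by exact_mod_cast hk1
    linarith
  calc 2 * (T * Real.exp (-(2 * k))) ≤ Real.exp k * (T * Real.exp (-(2 * k))) := by gcongr
    _ = T * Real.exp (-k) := by
        have : Real.exp (-(k : ℝ)) = Real.exp k * Real.exp (-(2 * k)) := by
          rw [← Real.exp_add]
          congr 1
          ring
        rw [this]
        ring
    _ ≤ T * Real.exp (-((L / Real.log L ^ 4))) := by
        gcongr

end Pool.Agent.Helper57.QZ
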