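import Pool.Agent.Helper57.QZ.Stmts3
import Pool.Agent.Helper46.Q2.TS2

/-! Row TS3 of the sheet `Pool.Agent.Helper57.QZ.Stmts3` (from RT3, EX3), after helper46. -/

set_option autoImplicit false

namespace Pool.Agent.Helper57.Q3

open MeasureTheory Set Filter Topology Pool.Agent.Helper57.QZ Pool.Agent.Helper46.Q2
open Pool.Agent.Helper98.QZ (p2 p3 p4 vol_le le' lf)

lemma ev3 : ∃ T₃ : ℝ, ∀ T : ℝ, T₃ ≤ T → 2 ≤ Real.log (Real.log T) ∧
    6 * Real.log (Real.log T) ^ 4 ≤ Real.log T := by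
  have h2 : ∀ᶠ T : ℝ in atTop, 2 ≤ Real.log (Real.log T) :=
    (Real.tendsto_log_atTop.comp Real.tendsto_log_atTop).eventually_ge_atTop _
  have h3 : ∀ᶠ X : ℝ in atTop, 6 * Real.log X ^ 4 ≤ X := by
    have h := (isLittleO_log_rpow_atTop (show (0:ℝ) < 1 / 4 by norm_num)).bound
      (show (0:ℝ) < 1 / 6 by norm_num)
    filter_upwards [h, eventually_ge_atTop (1:ℝ)] with X h1 h2
    have hl : 0 ≤ Real.log X := Real.log_nonneg h2
    rw [Real.norm_of_nonneg hl, Real.norm_of_nonneg (Real.rpow_nonneg (by linarith) _)] at h1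
    have h4 : (6 * Real.log X) ^ 4 ≤ (X ^ ((1:ℝ) / 4)) ^ 4 :=
      pow_le_pow_left₀ (by positivity) (by linarith) 4
    have h5 : (X ^ ((1:ℝ) / 4)) ^ 4 = X := by
      rw [← Real.rpow_natCast, ← Real.rpow_mul (by linarith)]
      norm_num
    rw [h5] at h4
    have h6 : 0 ≤ Real.log X ^ 4 := by positivity
    nlinarith
  obtain ⟨T0, hT0⟩ := eventually_atTop.1 (h2.and (Real.tendsto_log_atTop.eventually h3))
  exact ⟨T0, hT0⟩

lemma exc3 {T N : ℝ} (hT0 : 0 < T) (hN : 1 ≤ N) (h2 : 2 ≤ Real.log (Real.log T))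
    (h6 : 6 * Real.log (Real.log T) ^ 4 ≤ Real.log T)
    (hNT : N ≤ Real.exp (Real.log T / Real.log (Real.log T) ^ 6)) :
    3 * T * Real.exp (-(Real.log T / Real.log (Real.log T) ^ 4)) ≤ T / (8 * N) := by
  obtain ⟨L, hL⟩ : ∃ L : ℝ, L = Real.log T := ⟨_, rfl⟩
  obtain ⟨q, hq⟩ : ∃ q : ℝ, q = Real.log (Real.log T) := ⟨_, rfl⟩
  rw [← hq] at h2 h6 hNT ⊢
  rw [← hL] at h6 hNT ⊢
  have hq0 : 0 < q := by linarith
  obtain ⟨M, hM⟩ : ∃ M : ℝ, M = L / q ^ 4 := ⟨_, rfl⟩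
  have hM6 : 6 ≤ M := by
    rw [hM, le_div_iff₀ (by positivity)]
    exact h6
  have hLq : L / q ^ 6 ≤ M / 4 := by
    have h3 : L / q ^ 6 = M / q ^ 2 := by
      rw [hM]
      field_simp
    rw [h3]
    exact div_le_div_of_nonneg_left (by linarith) (by norm_num) (by nlinarith)
  rw [← hM]
  have h24 : (24:ℝ) ≤ Real.exp 4 := by
    have h1 : (2.7 : ℝ) ≤ Real.exp 1 := by
      have := Real.exp_one_gt_d9
      linarith
    have h3 : Real.exp 4 = Real.exp 1 ^ 4 := by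
      rw [← Real.exp_nat_mul]
      norm_num
    rw [h3]
    calc (24 : ℝ) ≤ 2.7 ^ 4 := by norm_num
      _ ≤ Real.exp 1 ^ 4 := pow_le_pow_left₀ (by norm_num) h1 4
  have h5 : 24 * N ≤ Real.exp M := by
    calc 24 * N ≤ Real.exp 4 * Real.exp (M / 4) :=
          mul_le_mul h24 (hNT.trans (Real.exp_le_exp.2 hLq)) (by linarith) (Real.exp_pos _).le
      _ = Real.exp (4 + M / 4) := (Real.exp_add _ _).symm
      _ ≤ Real.exp M := Real.exp_le_exp.2 (by linarith)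
  rw [Real.exp_neg, le_div_iff₀ (by linarith)]
  have h7 : 3 * T * (Real.exp M)⁻¹ * (8 * N) = T * ((24 * N) * (Real.exp M)⁻¹) := by ring
  rw [h7]
  have h8 : (24 * N) * (Real.exp M)⁻¹ ≤ 1 := by
    rw [← div_eq_mul_inv, div_le_one (Real.exp_pos _)]
    exact h5
  nlinarith

theorem ts3_of57 (h1 : ST_RT3) (h2 : ST_EX3) : ST_TS3 := by
  intro ε hε η hη
  obtain ⟨hη0, hη1⟩ := hη
  set e : ℝ := η / 8 with he
  have he0 : 0 < e := by rw [he]; positivity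
  have he1 : e ≤ 1 / 16 := by rw [he]; linarith
  have hηe : η = 8 * e := by rw [he]; ring
  obtain ⟨N₀, hN₀, hRT⟩ := h1 ε hε e ⟨he0, by linarith⟩
  obtain ⟨A₀, hA₀, hEX⟩ := h2 ε hε (e / 2) ⟨by linarith, by linarith⟩
  obtain ⟨T₃, hT₃⟩ := ev3
  obtain ⟨T₁, hT₁, hEX'⟩ := hEX A₀ le_rfl
  obtain ⟨T₂, hT₂, hRT'⟩ := hRT A₀ hA₀
  refine ⟨N₀, max (max T₁ T₂) T₃, hN₀,
    hT₁.trans ((le_max_left _ _).trans (le_max_left _ _)), ?_⟩
  intro T hT N hN hNT σ hσ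
  have hTT₁ : T₁ ≤ T := ((le_max_left _ _).trans (le_max_left _ _)).trans hT
  have hTT₂ : T₂ ≤ T := ((le_max_right _ _).trans (le_max_left _ _)).trans hT
  have hTT₃ : T₃ ≤ T := (le_max_right _ _).trans hT
  obtain ⟨hq2, hq6⟩ := hT₃ T hTT₃
  have hT0 : 0 < T := by linarith
  have hN1 : 1 ≤ N := hN₀.trans hN
  have hNp : 0 < N := by linarith
  have hσ0 : 0 < σ := by linarith [hσ.1, hε.1]
  obtain ⟨A, B, hA, hB, hR1, hR2, hR3, hR4⟩ := hRT' T hTT₂ N hN hNT σ hσ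
  obtain ⟨E, hE, hEv, hEp⟩ := hEX' T hTT₁ σ hσ
  have hEv' : volume.real E ≤ T / (8 * N) := hEv.trans (exc3 hT0 hN1 hq2 hq6 hNT)
  have hB1 : 1 ≤ B := by
    refine le_trans ?_ hB
    rw [le_div_iff₀ he0]
    linarith
  have hf : ∀ t ∈ Icc T (2 * T), t ∉ E →
      (1 - e) * ‖Zy (zA A₀ T) σ (lin (zA A₀ T) t)‖ ≤ ‖riemannZeta (pt σ t)‖ ∧
      ‖riemannZeta (pt σ t)‖ ≤ (1 + e) * ‖Zy (zA A₀ T) σ (lin (zA A₀ T) t)‖ := fun t ht hEt =>
    fac he0 he1 (hEp t ht hEt).1 (Zy_ne hσ0 _) (hEp t ht hEt).2.1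
  have hq : ∀ t ∈ Icc T (2 * T), t ∉ E →
      ‖deriv riemannZeta (pt σ t) / riemannZeta (pt σ t) -
        Wy (zA A₀ T) σ (lin (zA A₀ T) t)‖ ≤ e := fun t ht hEt =>
    (hEp t ht hEt).2.2.trans (by linarith)
  have hTN : 0 < T / N := div_pos hT0 hNp
  have h8 : T / (8 * N) = (1 / 8) * (T / N) := by field_simp
  refine ⟨A, B, hA, hB1, ?_, ?_, ?_, ?_, ?_⟩
  · refine lower hT0 hN1 hE hEv' hR1 (fun t ht => ht.1) fun t ht hEt => ?_
    rw [hηe]
    exact la he0 he1 hA (hf t ht.1 hEt).1 ht.2.1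
  · have h5 := vol_le (S := {t : ℝ | t ∈ Icc T (2 * T) ∧ (1 + η) * A ≤ ‖riemannZeta (pt σ t)‖})
      (E := E) (L := {t : ℝ | t ∈ Icc T (2 * T) ∧
        (1 + e) * A ≤ ‖Zy (zA A₀ T) σ (lin (zA A₀ T) t)‖}) (T := T) (by
        rintro t ⟨ht, h⟩
        by_cases hEt : t ∈ E
        · exact Or.inl hEt
        · refine Or.inr ⟨ht, ?_⟩
          by_contra hc
          have := lc he0 he1 hA (hf t ht hEt).2 (not_le.1 hc)
          rw [hηe] at h
          linarith) hE (fun t ht => ht.1)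
    linarith
  · refine lower hT0 hN1 hE hEv' hR1 (fun t ht => ht.1) fun t ht hEt => ?_
    rw [hηe]
    exact lb he0 he1 hA hB1 (hEp t ht.1 hEt).1 (hf t ht.1 hEt).1 (hq t ht.1 hEt) ht.2.1 ht.2.2
  · have h5 := vol_le (S := {t : ℝ | t ∈ Icc T (2 * T) ∧
        (1 + η) * (A * B) ≤ ‖deriv riemannZeta (pt σ t)‖})
      (E := E) (L := {t : ℝ | t ∈ Icc T (2 * T) ∧
          (1 + e) * A ≤ ‖Zy (zA A₀ T) σ (lin (zA A₀ T) t)‖} ∪
        {t : ℝ | t ∈ Icc T (2 * T) ∧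
          (1 + e) * B ≤ ‖Wy (zA A₀ T) σ (lin (zA A₀ T) t)‖}) (T := T) (by
        rintro t ⟨ht, h⟩
        by_cases hEt : t ∈ E
        · exact Or.inl hEt
        · refine Or.inr ?_
          by_cases hc : (1 + e) * A ≤ ‖Zy (zA A₀ T) σ (lin (zA A₀ T) t)‖
          · exact Or.inl ⟨ht, hc⟩
          · refine Or.inr ⟨ht, ?_⟩
            by_contra hd
            have := ld he0 he1 hA hB1 (hEp t ht hEt).1 (hf t ht hEt).2 (hq t ht hEt)
              (not_le.1 hc) (not_le.1 hd)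
            rw [hηe] at h
            linarith) hE (union_subset (fun t ht => ht.1) (fun t ht => ht.1))
    have h6 := measureReal_union_le (μ := (volume : Measure ℝ))
      {t : ℝ | t ∈ Icc T (2 * T) ∧ (1 + e) * A ≤ ‖Zy (zA A₀ T) σ (lin (zA A₀ T) t)‖}
      {t : ℝ | t ∈ Icc T (2 * T) ∧ (1 + e) * B ≤ ‖Wy (zA A₀ T) σ (lin (zA A₀ T) t)‖}
    linarith
  · intro θ
    constructor
    · refine lower hT0 hN1 hE hEv' (hR4 θ) (fun t ht => ht.1) fun t ht hEt => ?_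
      rw [hηe]
      refine lf he0 hB1 (hq t ht.1 hEt) (le_trans ?_ ht.2)
      exact mul_le_mul_of_nonneg_right (by linarith) (by linarith)
    · have h5 := vol_le (S := {t : ℝ | t ∈ Icc T (2 * T) ∧ (1 + η) * B ≤
          (Complex.exp (-((θ : ℂ) * Complex.I)) *
            (deriv riemannZeta (pt σ t) / riemannZeta (pt σ t))).re})
        (E := E) (L := {t : ℝ | t ∈ Icc T (2 * T) ∧
          (1 + e) * B ≤ ‖Wy (zA A₀ T) σ (lin (zA A₀ T) t)‖})
        (T := T) (by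
          rintro t ⟨ht, h⟩
          by_cases hEt : t ∈ E
          · exact Or.inl hEt
          · refine Or.inr ⟨ht, ?_⟩
            by_contra hd
            have hd' : ‖Wy (zA A₀ T) σ (lin (zA A₀ T) t)‖ < (1 + 2 * e) * B :=
              (not_le.1 hd).trans_le (mul_le_mul_of_nonneg_right (by linarith) (by linarith))
            have := le' (θ := θ) he0 hB1 (hq t ht hEt) hd'
            rw [hηe] at h
            linarith) hE (fun t ht => ht.1)
      linarith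

end Pool.Agent.Helper57.Q3
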